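import Pool.Agent.Lib.MP_634427_lc.Qp.Final

/-! NP is in quasi-polynomial time if and only if some set of quasi-polynomial density is hard for
NP under quasi-polynomial-time reductions with polylogarithmically many adaptive queries, followed
by polylogarithmically many votes.

`QT f`: the function `f` is computed in quasi-polynomial time, that is, from `a` and the number
`2 ^ ((log |a|) ^ c + c)` in unary it is computed in polynomial time (Cobham's function algebra on
binary trees, `PolyTime`, `PT`). `QDense S`: for some `c` the set `S` has at most
`2 ^ ((log n) ^ c + c)` words of length at most `n`. `QVoteReducible A S`: with `T = (log n) ^ c + c`,
after at most `T` adaptive queries to `S` at most `T` votes are held; a vote is a list of bundles,
each of at most `T` words, with integer weights of at most `T` binary digits, and it is won if the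
bundles inside `S` have positive total weight; the decision whether `x` is in `A` is made by a
quasi-polynomial-time evaluator from `x`, the answers and the outcomes of the votes. The number of
the bundles is not restricted (it is quasi-polynomial). So this contains all reductions with
polylogarithmically many queries (without votes: known, Homer, Longpre), and all disjunctive,
conjunctive, majority and threshold truth-table reductions with quasi-polynomially many queries.

Idea of the proof. (1) The queries and the votes are replaced by one vote with unit weights: the
number of answer sequences is quasi-polynomial, and the outcomes of the votes are expressed by
products of rational functions with small error (Beigel, Reingold, Spielman). (2) Let `T` be the set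
of the witnesses of `x`, vectors of length `m`. Items are systems of linear equations modulo a prime
`P` of quasi-polynomial size, an item is true if `T` contains a solution, and the questions whether
items are true form an NP problem whose length depends on `log P` only. The reduction gives each
item an integer vector with quasi-polynomial sum of absolute values, and an unknown set of
quasi-polynomially many coordinates (the bundles inside `S`) has positive sum exactly for true
items. For each level of the tree of items, a quasi-polynomial list of items is close in the mean to
all items of the level, or to all children of the previous list, for each coordinate, and it may be
checked in quasi-polynomial time that it is. Such lists are a certificate of quasi-polynomial size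
that `T` is empty. (3) The pair of the first witness `u` of `x` and such a certificate that there is
no earlier one is a witness of a relation for `x` and a padding, and its part `u` is unique; it is
found by means of the candidate lists which exist for reductions to one vote (rows of signs: only
few of them agree with the votes). -/

namespace Pool.Agent.Results.MP_634427_lc.QuasiPolynomial

open Pool.Agent.Lib.MP_634427_lc

/-- NP is in quasi-polynomial time iff some set of quasi-polynomial density is hard for NP under
reductions in quasi-polynomial time with polylogarithmically many queries and votes. -/
theorem result :
    (∃ S : Set Word, QDense S ∧ ∀ A : Set Word, InNP A → QVoteReducible A S) ↔
      ∀ L : Set Word, InNP L → InQP L :=
  Qp.quasi

end Pool.Agent.Results.MP_634427_lc.QuasiPolynomial
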