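import Pool.Agent.Lib.MP_634427_lc.Y.Main

/-! Reductions to sparse sets with few short queries and a fixed rule: P = NP.

For a relation `V` in P let `Ver V c` be the NP set of the words `x` with `V (x, w)` for a word `w`
of length `(|x| + 2) ^ c`. Each set in NP is `Ver V c` for some `V` in P and all large `c`. If `V`
is fixed and `c` grows, then the sets `Ver V c` get harder, and for a sparse set `S` which is hard
for NP it is natural that the queries for words of length `n` have length `n ^ O(c)` (pad the words
to the length `n ^ c`).

P = NP if and only if there are a rule `E` computable in polynomial time, exponents `p < q` and a
sparse set `S` such that for each `V` in P and each `K` there are `c ≥ K` and `r` with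
`r / q ≤ c / K` such that `Ver V c` is low-reducible to `S` with the rule `E` and the exponents
`p / q`, `r / q`.

Low reductions (`LowReducible`): in polynomial time one computes from `x`, `|x| = n`, a word `e` and
a list of queries, such that `x` is in the set iff the rule `E` is true for `e` and the answers of
the oracle `S`; `|e|` plus the number of the queries is `O(n ^ (p / q))`, and `S` has
`O(n ^ (r / q))` words of length at most the length of the longest query. The rule and `p / q` are
the same for all sets, the constants, the polynomials and `r` depend on the set.

So the sparse set `S` may have any polynomial density: if it has `O(n ^ b)` words of length at most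
`n` and the queries have length `O(n ^ t)`, then `r / q = b t`. Examples: every set in NP is
reducible to `S` with `O(n ^ (1 - h))` queries of length `O(n ^ t)` and a fixed rule, such as
disjunction, conjunction, parity, majority or the evaluation of a circuit that is a part of `e`,
where `h > 0` and `t` are fixed; or by adaptive reductions with at most `c log n` queries, `c < 1`,
of length `O(n ^ t)` (list the queries for all possible answers, the rule follows the path). More
generally the queries for `Ver V c` may have length `n ^ o(c)`. If `S` has density `n ^ o(1)`, then
the queries may have any polynomial length (`r = 1`).

Polynomial time is defined by Cobham's function algebra on binary trees (`PolyTime`, `PT`).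

Idea of the proof. By (1) of `SublinearReductions`, NP = coNP. Let `Q` be in NP, reducible to `S` by
`f`. For `n` call a list `Z` of words right if it gives, in place of the oracle `S`, the right
answers for all words of length at most `n`. The words of `S` that are queried form a right list of
polynomial size, and that `Z` is right is an NP question, as NP = coNP. Let `u_n` be the first pair
of a right list and a certificate for this; then `u = u_n` has certificates of length
`n ^ e`, again by NP = coNP. So there is one relation `V` in P such that for all `c` and all `n`
with `n ^ e ≤ k ^ c` the set `Ver V c` answers the questions whether `u_n` has certain properties,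
and a question is given by the binary numeral of `n`, padded to the length `k`, and a description of
the property. Take `K = 8 e`, then `c`, `r` and the reduction of `Ver V c`, and `k` about
`n ^ (e / c)`.

To find `u_n` one walks down the tree of the prefixes of possible `u_n` with lists of at most `R`
prefixes of equal length. When the list `v_1, ..., v_R` is full, one of its members is deleted, as
follows. A decision list of `R` rules gives each of the `v_i` a short name. For a 0-1 matrix `D`
with `N` rows and `R` columns let row `j` be the question whether the name of `u_n` is the name of
some `v_i` with `D_(j i) = 1`. This is a question of length `O(k)` to `Ver V c`, and the reduction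
gives a row `(e_j, queries)` of size at most `β = O(k ^ (p / q))`. If `v_i` is a prefix of `u_n`, then
the words of `S` among all queries, at most `μ = O(k ^ (r / q))`, give all the entries of the column
`i`: `E(e_j, answers) = D_(j i)` for all `j`. So (K1) `there are at most μ names of queries which
give column i` is true; if this is true for all `i`, then `D` is determined by the rows, with short
names instead of the queries, and by `R` lists of `μ` names, that is, by much fewer than `N R` bits,
as soon as `N` is a bit larger than `μ` and `R` a bit larger than `β`; this is possible with
`R ≤ k ^ (1 - δ)`, as `p < q`. If `D` is not given by so few bits, then (K1) is false for some `i`,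
and `v_i` can be deleted. Such a `D` exists by counting, and it is found bit by bit with the
questions (K2) `can this word be extended to a matrix that is not given by few bits`. Both (K1) and
(K2) are questions about words of length about
`β μ k ^ o(1) ≤ k ^ (2 + r / q) ≤ n ^ (1 / 2)`, they depend only on `E`, and by NP = coNP they are
questions to a fixed set `U` in NP. So `u_n`, and then the question whether a word of length `n` is
in `Q`, is decided in polynomial time with questions of length at most `n ^ (1 / 2)` to `U`. For
`Q = U` this is a self-reduction from `n` to `n ^ (1 / 2)`, the recursion has depth
`O(log log n)`, and the running time is polynomial. So `U` is in P, and then all sets `Q` in NP. -/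

namespace Pool.Agent.Results.MP_634427_lc.ShortQueries

open Pool.Agent.Lib.MP_634427_lc

/-- P = NP iff for some polynomial-time rule `E`, exponents `p < q` and a sparse set `S`, for each
polynomial-time relation `V` and each `K` there are `c ≥ K` and `r` with `r / q ≤ c / K` such that
the set `Ver V c` of the words `x` with a witness of length `(|x| + 2) ^ c` is reducible to `S` with
the rule `E`, where a word of length `n` is mapped to data and `O(n ^ (p / q))` queries, and `S` has
`O(n ^ (r / q))` words up to the length of the longest query. -/
theorem result :
    (∃ (E : Word × List Bool → Bool) (q p : ℕ) (S : Set Word), PT E ∧ p < q ∧ Sparse S ∧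
      ∀ V : Word × Word → Bool, PT V → ∀ K : ℕ, ∃ c r : ℕ, K ≤ c ∧ K * r ≤ c * q ∧
        LowReducible E q p r (Ver V c) S) ↔ ∀ L : Set Word, InNP L ↔ InP L := by
  constructor
  · rintro ⟨E, q, p, S, hE, hq, hS, hard⟩ L
    exact ⟨Y.inP_of_hard hE hq hS hard L, inP_imp_inNP L⟩
  · intro h
    refine ⟨fun a => decide (a.1 = [true]), 1, 0, ∅, ?_, by omega, ⟨0, fun n => by simp⟩,
      fun V hV K => ⟨K, 0, le_rfl, by omega, ?_⟩⟩
    · exact PT.eqWord PT.fst (PT.const [true])
    · obtain ⟨g, hg, hgA⟩ := (h (Ver V K)).1 (Y.inNP_ver hV K)
      refine ⟨fun x => ([g x], []), 1, PT.pair (PT.cons hg (PT.const [])) (PT.const []),
        fun x => ⟨by simp, by simp, ?_⟩⟩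
      rw [hgA]
      simp

end Pool.Agent.Results.MP_634427_lc.ShortQueries
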