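import Pool.Agent.Lib.MP_634427_lc.Small.CoNPk

/-! If each set in NP is reducible to one sparse set by a small reduction, then NP = coNP.

Small reductions (`SmallReducible`): in polynomial time one computes from `x` a word `e` and a list
of queries of any polynomial length; whether `x` is in the set depends only on `e` and the answers of
the oracle, by an arbitrary rule, which need not be computable; and `|e|` plus the number of the
queries is `O(|x| ^ (k / (k + 1)))` for some `k`, that is, `O(n ^ (1 - ε))`, where `k` may depend on
the set in NP. This contains Turing reductions with at most `c log n` adaptive queries, `c < 1` (list
the queries for all possible answers), and disjunctive, conjunctive, parity, majority and other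
truth-table reductions with a fixed evaluator and at most `n ^ (1 - ε)` queries.

Polynomial time is defined by Cobham's function algebra on binary trees (`PolyTime`, `PT`).

Idea of the proof. Let `L` be in NP. To certify that `x` is not in `L` one walks down the tree
of the prefixes of possible witnesses with lists of at most `R` prefixes, a fixed polynomial in `n`.
When the list `v_1, ..., v_t` has become too long, one of its members is deleted. The set of all
`(x, v, D)`, `D` a word of length `t`, such that some `v_i` with `D_i = 1` is a prefix of a witness is
in NP; its instances have length `O(t n)`, so the small reduction asks much fewer than `t` queries.
There are `2 ^ t` words `D`; by the pigeonhole principle and the sunflower lemma there are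
`N = M t + 2` words `D` with the same `e` and the same number of queries, for which the queries form
a sunflower (the same queries at the core positions, and no common queries at the others); here `M`
is a bound for the number of words of `S`. Then all but `M` of these `D` have the same truth value.
Since `N` different words have a coordinate `i` with more than `M` ones and more than `M` zeros, `v_i`
cannot be the only prefix of a witness in the list, and may be deleted. Such sunflowers can be
guessed and checked in polynomial time. -/

namespace Pool.Agent.Results.MP_634427_lc.SmallReductions

open Pool.Agent.Lib.MP_634427_lc

/-- If `S` is sparse and every set in NP is reducible to `S` by a small reduction, then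
NP = coNP. -/
theorem result :
    (∃ S : Set Word, Sparse S ∧ ∀ A : Set Word, InNP A → ∃ k, SmallReducible k A S) →
      ∀ L : Set Word, InNP L → InNP Lᶜ := by
  rintro ⟨S, hS, hard⟩ L hL
  exact Small.coNP_of_small_each S hS hard L hL

end Pool.Agent.Results.MP_634427_lc.SmallReductions
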