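import Pool.Agent.Lib.MP_634427_lc.Ad.Final

/-! P = NP if and only if a sparse set is hard for NP under weighted Turing reductions, that is,
polynomial-time Turing reductions with an adaptive phase with boundedly many blocks of negative
answers and a final weighted vote. The same for Turing reductions with boundedly many negative
answers, for disjunctive and for majority truth-table reductions; and P = NP if and only if every
set in NP is many-one reducible to one set that is decided by single weighted threshold gates (the
class LT1: for each length one linear threshold function with arbitrary real weights).

Weighted Turing reductions (`WeightedReducible`): an adaptive phase with polynomially many queries,
of which at most `k` have a negative answer, where consecutive negative answers to queries in `0*`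
count only once; then a list of bundles of words with integer weights, and `x` is in `A` iff the
total weight of the bundles inside the sparse set `S` is positive. A bundle has either at most `k`
words of `0*` and any weight, in binary (polynomial threshold functions of constant degree, with
arbitrary weights, in the bits of a tally set), or at most `d n` words and weight `1` or `-1`, where
`(s + 1) ^ (d n)` is polynomially bounded, `s` being the number of words of `S` of length at most `n`
(any constant `d` for a sparse set). All truth-table reductions with boundedly many queries and
their majority votes are of this form.

Polynomial time is defined by Cobham's function algebra on binary trees (`PolyTime`, `PT`). A
Turing reduction is given by polynomial-time functions that compute, from the input and the list of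
the answers received so far, whether the computation stops, the next query, and the output.

Idea of the proof. Let `T` be the set of the witnesses of `x`, 0-1 vectors of length `m`. Items are
systems `D` of `n` linear equations modulo a prime `P`, an item is true if `T` contains a solution.
The questions whether items are true form an NP problem, and their length depends on `log P`
only. The children of an item are obtained by adding a new equation on top, from an explicit
family of `P ^ 4` equations depending on two parameter vectors, and by adding multiples of it to
the old equations. (1) Covering: if more than `k0` solutions are in `T` then nearly all children are
true. (2) Mixing: for random parameters the mean of a function over the children of a random
item is close to its mean over all items, in the mean square, with an error which does not depend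
on the number of the equations. (3) Scripts: a script is a short list of operations that continues
the adaptive phase of every item of a level in parallel, with positive answers to the queries in a
list, with one negative answer, or through a block of negative answers that ends with a given
common query; it drops some items. A tree of polynomially many scripts, of which it can be checked
without knowing `S` that it is closed, has the property that for every sparse `S` one of its leaves is
right: all surviving runs are complete and correct, except for those that got a negative answer
to a query in `S` which is pending for very few items. The tree can be chosen so that every leaf
keeps a polynomial fraction of the items (branch on popular queries). (4) For each leaf the final
votes give each surviving item an integer vector of polynomial dimension and bit length such that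
an unknown linear functional is positive on the vectors of true items and negative on those of
false items, if the leaf is right. For each level and each leaf there are a linear map and scaling
factors of polynomial bit length (by a potential argument with determinants) such that the scaled
images of the vectors of the surviving items of the level are bounded and in isotropic position.
So for each level a polynomial list of items represents, for all leaves at once, the surviving part,
the first and second moments of its vectors, and the numbers of the items at which an unpopular
query is pending. The lists, trees, maps and scaling factors form a certificate that `T` is empty:
one checks the trees, the bounds and the moments, that the last items are contradictory, and that
no item is solved by one up to `k0` elements of `T` (this uses the polynomial-time lists of candidates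
for unique witnesses, which exist for all these reductions). If `T` is not empty, then the first item
is true, so nearly all of its children are true, also in the surviving part of the right leaf, so
the functional is large in the mean over the surviving children (isotropy and the bound), hence
positive in the mean over the surviving part of the next list, so an item in the next list is true,
and so on, a contradiction. Hence NP = coNP, and then the first witness of `x` is unique in an NP
relation and is found in polynomial time. For threshold gates with real weights one first finds
integer weights of polynomial bit length (Muroga); their digits are coded in a tally set. -/

namespace Pool.Agent.Results.MP_634427_lc.WeightedTuring

open Pool.Agent.Lib.MP_634427_lc

/-- P = NP iff a sparse set is hard for NP under weighted Turing reductions; iff a sparse set is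
hard under Turing reductions with boundedly many negative answers; iff a sparse set is hard under
disjunctive truth-table reductions; iff a sparse set is hard under majority truth-table reductions;
iff all sets in NP are many-one reducible to one set decided by single weighted threshold gates
with real weights. -/
theorem result :
    ((∃ S : Set Word, Sparse S ∧ ∀ A : Set Word, InNP A → WeightedReducible A S) ↔
      ∀ L : Set Word, InNP L ↔ InP L) ∧
    ((∃ S : Set Word, Sparse S ∧ ∀ A : Set Word, InNP A → ∃ k, NegReducible k A S) ↔
      ∀ L : Set Word, InNP L ↔ InP L) ∧
    ((∃ S : Set Word, Sparse S ∧ ∀ A : Set Word, InNP A → DisjReducible A S) ↔
      ∀ L : Set Word, InNP L ↔ InP L) ∧
    ((∃ S : Set Word, Sparse S ∧ ∀ A : Set Word, InNP A → MajReducible A S) ↔
      ∀ L : Set Word, InNP L ↔ InP L) ∧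
    ((∃ B : Set Word, ThresholdGates B ∧
        ∀ A : Set Word, InNP A → Lib.MP_634427_lc.ManyOneReducible A B) ↔
      ∀ L : Set Word, InNP L ↔ InP L) :=
  Ad.collapse_weighted

end Pool.Agent.Results.MP_634427_lc.WeightedTuring
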